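import Pool.Agent.helper11.VQ.Spec3c

set_option autoImplicit false

open scoped MatrixGroups ContDiff Topology UpperHalfPlane ComplexConjugate ENNReal
open UpperHalfPlane MeasureTheory Filter Set

namespace Pool.Agent.VQ

open Pool.Agent.RS
open Pool.Agent.RPQ (CEig mean VV IsOp IsMul OProj wrd PJ nst mks MO Net Cl CkB PN upd Eqd)

/-- the functions of the final statement -/
noncomputable def FNV_u (J : ℕ → ℕ) (χ : (k : ℕ) → Fin (J k) → ℍ → ℝ) (k j : ℕ) (z : ℍ) : ℝ :=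
  if h : j < J k then ak k * χ k ⟨j, h⟩ z else 0

theorem FNV_sum (J : ℕ → ℕ) (χ : (k : ℕ) → Fin (J k) → ℍ → ℝ) (k : ℕ) (ξ : ℕ → ℝ) (z : ℍ) :
    ∑ j ∈ Finset.range (J k), ξ j * FNV_u J χ k j z = ak k * VV (χ k) (fun j => ξ (j : ℕ)) z := by
  rw [Finset.sum_range]
  unfold VV
  rw [Finset.mul_sum]
  refine Finset.sum_congr rfl fun i _ => ?_
  have h : FNV_u J χ k (i : ℕ) z = ak k * χ k i z := by
    unfold FNV_u
    rw [dif_pos i.2]
  rw [h]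
  ring

theorem FNV_tsum (J : ℕ → ℕ) (χ : (k : ℕ) → Fin (J k) → ℍ → ℝ) (ζ : ℕ × ℕ → ℝ) (z : ℍ) :
    (∑' k, ∑ j ∈ Finset.range (J k), ζ (k, j) * FNV_u J χ k j z) = rV χ ζ z := by
  unfold rV
  refine tsum_congr fun k => ?_
  unfold lv
  exact FNV_sum J χ k (fun j => ζ (k, j)) z

theorem FNV_mono {Γ : Subgroup SL(2, ℝ)} {κ : ℝ → ℝ} {C0 η η' : ℝ} {k0 : ℕ} {J : ℕ → ℕ} {p : (k : ℕ) → Fin (J k) → ℍ}
    {χ : (k : ℕ) → Fin (J k) → ℍ → ℝ} (h : FamV Γ κ C0 η k0 J p χ) (hη : η ≤ η') : FamV Γ κ C0 η' k0 J p χ := by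
  obtain ⟨h1, h2, h3, h4, h5, c, C', h6, h7, h8, h9⟩ := h
  exact ⟨h1, h2, h3, h4, h5, c, C', h6, h7, fun n hn => (h8 n hn).trans hη, h9⟩

theorem FNV_ak (k : ℕ) : 0 ≤ ak k := by
  unfold ak
  positivity

theorem FNV_zero (n : ℕ) (η : ℝ) (hη : 0 ≤ η) : CkB n (fun _ : ℍ => (0 : ℝ)) η := by
  intro g
  have h : QU.onC (fun z : ℍ => (fun _ : ℍ => (0 : ℝ)) (g • z)) = fun _ => (0 : ℝ) := rfl
  rw [h]
  have h2 : iteratedFDeriv ℝ n (fun _ : ℂ => (0 : ℝ)) = 0 := iteratedFDeriv_zero_fun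
  rw [h2]
  simpa using hη

theorem FNV_cont {φ : ℍ → ℂ} (h : QU.CD 2 φ) : Continuous φ := by
  have h1 : ContinuousOn (QU.onC φ) {w : ℂ | 0 < w.im} := ContDiffOn.continuousOn h
  have h2 : φ = fun z : ℍ => QU.onC φ (z : ℂ) := by
    funext z
    unfold QU.onC
    rw [ofComplex_apply]
  rw [h2]
  exact h1.comp_continuous continuous_coe (fun z => z.im_pos)

theorem FNV_proof (hBC2 : BC2_stmt) (hFAMV : FAMV_stmt) (hSEV : SEV_stmt) (hLNV : LNV_stmt) (hMFV : MFV_stmt) (hLIP : RPQ.LIP_stmt)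
    (hRSM : RPQ.RSM_stmt) (hMOM : RPQ.MOM_stmt) (hDOM : QU.DOM_stmt) : FNV_stmt := by
  intro Γ hΓ
  obtain ⟨κ, hκ⟩ := hMOM.1
  obtain ⟨F0, hF0⟩ := hDOM Γ hΓ
  obtain ⟨η0, hη0, -, hB⟩ := hBC2 Γ F0 κ hΓ hF0 hκ
  obtain ⟨η, hη, hη8, hη1⟩ : ∃ η : ℝ, 0 < η ∧ η ≤ 1 / 8 ∧ η ≤ η0 :=
    ⟨min η0 (1 / 8), lt_min hη0 (by norm_num), min_le_right _ _, min_le_left _ _⟩
  obtain ⟨C0, k0, J, p, χ, hFam, hJ⟩ := hFAMV Γ κ (η / 2) hΓ hκ (by linarith)
  have hFam' : FamV Γ κ C0 η k0 J p χ := FNV_mono hFam (by linarith)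
  refine ⟨η, k0, J, FNV_u J χ, hη, hη8, hJ, ?_, ?_, ?_, ?_⟩
  · intro k j
    by_cases h : j < J k
    · have hk : k0 ≤ k := by
        by_contra hk
        have := hFam.zero k (by omega)
        omega
      have hn := hFam.net k hk
      have he : FNV_u J χ k j = fun z => ak k * χ k ⟨j, h⟩ z := by
        funext z
        unfold FNV_u
        rw [dif_pos h]
      rw [he]
      refine ⟨?_, ?_, ?_⟩
      · exact ContDiffOn.mul contDiffOn_const (hn.smooth ⟨j, h⟩)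
      · exact ⟨continuous_const.mul (hn.inv ⟨j, h⟩).1, fun γ z => by
          have h5 := (hn.inv ⟨j, h⟩).2 γ z
          simp only [h5]⟩
      · intro z
        exact mul_nonneg (FNV_ak k) (hn.bd ⟨j, h⟩ z).1
    · have he : FNV_u J χ k j = fun _ => 0 := by
        funext z
        unfold FNV_u
        rw [dif_neg h]
      rw [he]
      refine ⟨?_, ?_, ?_⟩
      · exact contDiffOn_const
      · exact ⟨continuous_const, fun γ z => rfl⟩
      · intro z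
        exact le_refl _
  · intro n
    obtain ⟨c, C', hc, -, -, h, -⟩ := hFam.sum
    refine ⟨c n, hc n, fun k ξ hξ => ?_⟩
    have h1 := h n k (fun q => ξ q.2) (fun q => hξ _)
    have he : (fun z : ℍ => ∑ j ∈ Finset.range (J k), ξ j * FNV_u J χ k j z) = lv χ (fun q => ξ q.2) k := by
      funext z
      unfold lv
      exact FNV_sum J χ k ξ z
    rw [he]
    exact h1
  · intro ζ hζ
    have h0 : QU.Inv Γ (fun _ : ℍ => (0 : ℝ)) := ⟨continuous_const, fun γ z => rfl⟩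
    have h00 : QU.CD ∞ (fun _ : ℍ => (0 : ℝ)) := contDiffOn_const
    obtain ⟨b, hb⟩ := (hSEV Γ κ C0 (η / 2) k0 J p χ (fun _ => 0) hΓ hFam h00 h0 (fun n _ => FNV_zero n (η / 2) (by linarith))).1
    have h1 := (hb ζ hζ).1
    have he : (fun z : ℍ => ∑' k, ∑ j ∈ Finset.range (J k), ζ (k, j) * FNV_u J χ k j z) = fun z => (fun _ : ℍ => (0 : ℝ)) z + rV χ ζ z := by
      funext z
      rw [FNV_tsum]
      simp
    rw [he]
    refine ⟨h1.1, fun n hn => ?_⟩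
    have h2 := h1.2.2.1 n hn
    have h3 : 2 * (η / 2) = η := by ring
    rw [h3] at h2
    exact h2
  · intro f0 hf1 hf2 hf3
    obtain ⟨D, hD, hL⟩ := hLNV Γ hΓ
    have hLm : ∀ m : ℕ, ∃ S : Finset (ℍ → ℝ), (∀ h ∈ S, TF Γ h) ∧
        ∀ h : ℍ → ℝ, QU.Inv Γ h → (∀ z w, |h z - h w| ≤ dist z w) → ∃ (c : ℝ), ∃ h' ∈ S, ∀ z, |(h z - c) / D - h' z| ≤ 1 / ((m : ℝ) + 1) :=
      fun m => hL (1 / ((m : ℝ) + 1)) (by positivity)
    choose S hS1 hS2 using hLm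
    obtain ⟨C, hC, hM⟩ := hMFV Γ (2 * η) D hΓ (by linarith) hD
    have hae : ∀ᵐ ζ ∂PN, ∀ m : ℕ, ∀ h ∈ S m, ∃ r0 : ℝ, 0 < r0 ∧ ∀ (μ : ℝ) (φ : ℍ → ℂ), r0 ≤ μ →
        CEig Γ (fun z => f0 z + rV χ ζ z) μ φ → |(∫ z in F0, h z * ‖φ z‖ ^ 2) - mean F0 h * nn F0 φ| ≤ 1 / ((m : ℝ) + 1) * nn F0 φ := by
      rw [ae_all_iff]
      intro m
      rw [Filter.eventually_all_finset]
      intro h hh
      exact hB C0 k0 J p χ f0 (FNV_mono hFam' hη1) hf1 hf2 (fun n hn g => (hf3 n hn g).trans hη1) h (1 / ((m : ℝ) + 1)) (hS1 m h hh) (by positivity)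
    obtain ⟨b, hb⟩ := (hSEV Γ κ C0 η k0 J p χ f0 hΓ hFam' hf1 hf2 hf3).1
    filter_upwards [hae, hRSM.2.1] with ζ hζ hζ1 ε hε
    have hb1 := (hb ζ hζ1).1
    obtain ⟨m, hm⟩ := exists_nat_one_div_lt (show 0 < ε / C by positivity)
    have hm2 : C * (1 / ((m : ℝ) + 1)) ≤ ε := by
      have h1 : 1 / ((m : ℝ) + 1) * C ≤ ε := by
        rw [lt_div_iff₀ (by linarith)] at hm
        exact hm.le
      linarith
    choose! r hr1 hr2 using hζ m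
    refine ⟨1 + ∑ h ∈ S m, |r h|, ?_, ?_⟩
    · have : 0 ≤ ∑ h ∈ S m, |r h| := Finset.sum_nonneg fun _ _ => abs_nonneg _
      linarith
    intro F μ φ hF hμ hE
    have he : (fun z : ℍ => f0 z + ∑' k, ∑ j ∈ Finset.range (J k), ζ (k, j) * FNV_u J χ k j z) = fun z => f0 z + rV χ ζ z := by
      funext z
      rw [FNV_tsum]
    rw [he] at hE ⊢
    have hl0 := (hLIP _ (2 * η) hb1.1).1 (hb1.2.2.1 0 (by norm_num))
    have hl1 := (hLIP _ (2 * η) hb1.1).2 (hb1.2.2.1 1 (by norm_num))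
    have hEq : Eqd Γ F (fun z => f0 z + rV χ ζ z) (C * (1 / ((m : ℝ) + 1))) φ := by
      refine hM F0 F (fun z => f0 z + rV χ ζ z) (1 / ((m : ℝ) + 1)) φ hF0 hF hb1.2.1 hl0 hl1 ⟨FNV_cont hE.1, hE.2.1⟩ (by positivity) ?_
      intro h hh1 hh2
      obtain ⟨c, h', hh', hc⟩ := hS2 m h hh1 hh2
      refine ⟨c, h', hS1 m h' hh', hc, ?_⟩
      refine hr2 h' hh' μ φ ?_ hE
      have h3 : |r h'| ≤ ∑ h ∈ S m, |r h| := Finset.single_le_sum (f := fun h => |r h|) (fun _ _ => abs_nonneg _) hh'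
      have h4 := le_abs_self (r h')
      linarith
    intro h hh1 hh2
    refine (hEq h hh1 hh2).trans ?_
    refine mul_le_mul_of_nonneg_right hm2 ?_
    refine integral_nonneg fun z => ?_
    positivity

end Pool.Agent.VQ
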